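import Pool.Graph.R_pool_sql_team_seeded_3997aac3.Q2.PM.Main

/-!
# 2-nilpotency from weakly propermutable subgroups

The theorem of the library on propermutable subgroups (project PM there) needs much less than
permutability with all subgroups of `B`: it is enough that `H` permutes with `B` and with the cyclic
subgroups of `B` of odd prime power order. The proofs are those of the library, with the weaker
hypothesis.
-/

set_option autoImplicit false

namespace KS7_39.D54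

open Subgroup Q2.PM
open Q2.TN (IsPNil IsSyl IsChief Nm)
open Q162.PM_A4 (KK mem_KK mem_KK' H_le_KK B_le_KK)
open Q123.PM_A6 (key index_eq)

/-- `H` is weakly propermutable: there is `B` with `G = N_G(H) B` such that `H` permutes with `B` and
with every cyclic subgroup of `B` of odd prime power order. -/
def WPro {G : Type} [Group G] (H : Subgroup G) : Prop :=
  ∃ B : Subgroup G, (∀ g : G, ∃ n ∈ Nm H, ∃ b ∈ B, g = n * b) ∧ Pm H B ∧
    ∀ q : ℕ, q.Prime → q ≠ 2 → ∀ x ∈ B, (∃ m : ℕ, x ^ q ^ m = 1) → Pm H (zpowers x)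

/-- all subgroups of order `2 ^ k` of `P` are weakly propermutable -/
def WHyp (k : ℕ) {G : Type} [Group G] (P : Subgroup G) : Prop :=
  ∀ H : Subgroup G, H ≤ P → Nat.card H = 2 ^ k → WPro H

theorem pm_of {G : Type} [Group G] {H B : Subgroup G} {q : ℕ} (hq : q.Prime) (hq2 : q ≠ 2)
    (hB : ∀ q : ℕ, q.Prime → q ≠ 2 → ∀ x ∈ B, (∃ m : ℕ, x ^ q ^ m = 1) → Pm H (zpowers x))
    (X : Subgroup G) (hX : X ≤ B) (hXq : IsPGroup q X) : Pm H X := by
  intro h hh x hx
  obtain ⟨m, hm⟩ := hXq ⟨x, hx⟩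
  obtain ⟨x', hx', h', hh', e⟩ := hB q hq hq2 x (hX hx) ⟨m, congrArg Subtype.val hm⟩ h hh x
    (mem_zpowers x)
  exact ⟨x', (zpowers_le.2 hx) hx', h', hh', e⟩

theorem a5 (G K : Type) [Group G] [Group K] [Finite G] [Finite K] (f : G →* K) (H : Subgroup G)
    (hf : Function.Surjective f) (hP : WPro H) : WPro (H.map f) := by
  obtain ⟨B, hB, hHB, hX⟩ := hP
  refine ⟨B.map f, fun k => ?_, ?_, ?_⟩
  · obtain ⟨g, rfl⟩ := hf k
    obtain ⟨n, hn, b, hb, rfl⟩ := hB g
    exact ⟨f n, Pool.Agent.Q278.PM.nm_map f H hn, f b, Subgroup.mem_map_of_mem f hb, map_mul f n b⟩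
  · intro h' hh' x hx
    obtain ⟨h, hh, rfl⟩ := Subgroup.mem_map.1 hh'
    obtain ⟨b, hb, rfl⟩ := Subgroup.mem_map.1 hx
    obtain ⟨y, hy, h2, hh2, e⟩ := hHB h hh b hb
    refine ⟨f y, Subgroup.mem_map_of_mem f hy, f h2, Subgroup.mem_map_of_mem f hh2, ?_⟩
    rw [← map_mul, e, map_mul]
  · intro q hq hq2 x hx hxq
    obtain ⟨b, hb, rfl⟩ := Subgroup.mem_map.1 hx
    obtain ⟨c, hc⟩ := hxq
    -- the order of `b`
    have hob : 0 < orderOf b := orderOf_pos b
    obtain ⟨a, m, hm, hbm⟩ := Nat.exists_eq_pow_mul_and_not_dvd hob.ne' q hq.ne_one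
    have hcop : Nat.Coprime m (q ^ c) :=
      Nat.Coprime.pow_right c ((Nat.Prime.coprime_iff_not_dvd hq).2 hm).symm
    obtain ⟨u, hu⟩ : ∃ u : ℕ, m * u ≡ 1 [MOD q ^ c] := by
      by_cases hN : 1 < q ^ c
      · obtain ⟨u, -, hu⟩ := Nat.exists_mul_mod_eq_one_of_coprime hcop hN
        exact ⟨u, by rw [Nat.ModEq, hu, Nat.mod_eq_of_lt hN]⟩
      · have h1 : 0 < q ^ c := pow_pos hq.pos c
        have h2 : q ^ c = 1 := by omega
        exact ⟨0, by rw [h2]; exact Nat.modEq_one⟩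
    let b' : G := b ^ (m * u)
    have hfb : f b' = f b := by
      rw [map_pow]
      have h1 : orderOf (f b) ∣ q ^ c := orderOf_dvd_of_pow_eq_one hc
      have h2 : (f b) ^ (m * u) = (f b) ^ 1 := by
        rw [pow_eq_pow_iff_modEq]
        exact hu.of_dvd h1
      rw [h2, pow_one]
    have hb' : b' ∈ B := B.pow_mem hb _
    have hbq : b' ^ q ^ a = 1 := by
      change (b ^ (m * u)) ^ q ^ a = 1
      rw [← pow_mul, show m * u * q ^ a = (q ^ a * m) * u by ring, ← hbm, pow_mul, pow_orderOf_eq_one,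
        one_pow]
    have hperm := hX q hq hq2 b' hb' ⟨a, hbq⟩
    intro h' hh' y hy
    obtain ⟨h, hh, rfl⟩ := Subgroup.mem_map.1 hh'
    obtain ⟨k, rfl⟩ := Subgroup.mem_zpowers_iff.1 hy
    obtain ⟨y', hy', h2, hh2, e⟩ := hperm h hh (b' ^ k) (zpow_mem (mem_zpowers b') k)
    refine ⟨f y', ?_, f h2, Subgroup.mem_map_of_mem f hh2, ?_⟩
    · obtain ⟨j, rfl⟩ := Subgroup.mem_zpowers_iff.1 hy'
      rw [map_zpow, hfb]
      exact zpow_mem (mem_zpowers _) j
    · rw [← map_mul, ← e, map_mul, map_zpow, hfb]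

/-- weakly propermutable 2-subgroups permute with the `q`-subgroups of their normal closure -/
theorem a4 (G : Type) [Group G] [Finite G] (H : Subgroup G) (hH : IsPGroup 2 H) (hPro : WPro H) :
    Sp H := by
  intro q hq hq2 Y hY hYR
  obtain ⟨B, hB1, hHB, hB2⟩ := hPro
  have hRK : normalClosure (H : Set G) ≤ KK H B hHB := by
    unfold Subgroup.normalClosure
    rw [closure_le]
    intro x hx
    obtain ⟨h, hh, hc⟩ := Group.mem_conjugatesOfSet_iff.1 hx
    obtain ⟨c, rfl⟩ := isConj_iff.1 hc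
    obtain ⟨n, hn, b, hb, e⟩ := hB1 c⁻¹
    have hn' : n⁻¹ * h * n ∈ H := by
      have h1 := (Subgroup.mem_normalizer_iff.1 ((Nm H).inv_mem hn) h).1 hh
      rwa [inv_inv] at h1
    have h2 : c * h * c⁻¹ = b⁻¹ * (n⁻¹ * h * n) * b := by
      have h3 : c = b⁻¹ * n⁻¹ := by rw [← mul_inv_rev, ← e, inv_inv]
      rw [e, h3]
      group
    rw [h2]
    exact (KK H B hHB).mul_mem ((KK H B hHB).mul_mem ((KK H B hHB).inv_mem (B_le_KK hb))
      (H_le_KK hn')) (B_le_KK hb)
  -- the action of `Y` on the cosets `h B`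
  let S : SubMulAction Y (G ⧸ B) :=
    { carrier := MulAction.orbit H ((1 : G) : G ⧸ B)
      smul_mem' := by
        rintro ⟨y, hy⟩ _ ⟨⟨h, hh⟩, rfl⟩
        have h1 : y * h ∈ KK H B hHB := (KK H B hHB).mul_mem (hRK (hYR hy)) (H_le_KK hh)
        obtain ⟨h', hh', b', hb', e⟩ := mem_KK' h1
        refine ⟨⟨h', hh'⟩, ?_⟩
        show ((h' * 1 : G) : G ⧸ B) = ((y * (h * 1) : G) : G ⧸ B)
        rw [mul_one, mul_one, e, QuotientGroup.eq]
        rw [← mul_assoc, inv_mul_cancel, one_mul]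
        exact hb' }
  have : Fact q.Prime := ⟨hq⟩
  have : Fact (Nat.Prime 2) := ⟨Nat.prime_two⟩
  have hcard : ¬ q ∣ Nat.card S := by
    intro hdvd
    have h1 : Nat.card S = (MulAction.orbit H ((1 : G) : G ⧸ B)).ncard :=
      Nat.card_coe_set_eq (MulAction.orbit H ((1 : G) : G ⧸ B))
    have h2 : Nat.card S ∣ Nat.card H := by
      rw [h1, ← MulAction.index_stabilizer]
      exact Subgroup.index_dvd_card _
    obtain ⟨k, hk⟩ := IsPGroup.iff_card.1 hH
    rw [hk] at h2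
    exact hq2 ((Nat.prime_dvd_prime_iff_eq hq Nat.prime_two).1 (hq.dvd_of_dvd_pow (hdvd.trans h2)))
  obtain ⟨⟨s, hs⟩, hfix⟩ := hY.nonempty_fixed_point_of_prime_not_dvd_card S hcard
  obtain ⟨⟨h, hh⟩, rfl⟩ := hs
  have hYB : ∀ y ∈ Y, h⁻¹ * y * h ∈ B := by
    intro y hy
    have h1 := congrArg Subtype.val (hfix ⟨y, hy⟩)
    have h2 : ((y * (h * 1) : G) : G ⧸ B) = ((h * 1 : G) : G ⧸ B) := h1
    rw [mul_one] at h2
    have h3 := QuotientGroup.eq.1 h2.symm
    rwa [← mul_assoc] at h3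
  have hX : Y.map (MulAut.conj h⁻¹).toMonoidHom ≤ B := by
    rintro _ ⟨y, hy, rfl⟩
    show h⁻¹ * y * h⁻¹⁻¹ ∈ B
    rw [inv_inv]
    exact hYB y hy
  have hP := pm_of hq hq2 hB2 _ hX (hY.map _)
  intro h1 hh1 y hy
  obtain ⟨x', ⟨y', hy', rfl⟩, h'', hh'', e⟩ := hP (h⁻¹ * h1 * h)
    (H.mul_mem (H.mul_mem (H.inv_mem hh) hh1) hh) (h⁻¹ * y * h⁻¹⁻¹) ⟨y, hy, rfl⟩
  have e' : h⁻¹ * h1 * h * (h⁻¹ * y * h⁻¹⁻¹) = (h⁻¹ * y' * h⁻¹⁻¹) * h'' := e
  refine ⟨y', hy', h * h'' * h⁻¹, H.mul_mem (H.mul_mem hh hh'') (H.inv_mem hh), ?_⟩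
  have e2 : h1 * y = h * (h⁻¹ * h1 * h * (h⁻¹ * y * h⁻¹⁻¹)) * h⁻¹ := by group
  rw [e2, e']
  group


theorem a6 (G : Type) [Group G] [Finite G] (H D P S : Subgroup G) (hH : IsPGroup 2 H)
    (hPro : WPro H) (hD : D.Normal) (hD2 : IsPGroup 2 D) (hP : IsSyl 2 P) (hPS : P ≤ S)
    (hW : Nm (H ⊓ D) ≤ S) : S = ⊤ := by
  obtain ⟨B, hB, -, hperm⟩ := hPro
  have hNm : ∀ n ∈ Nm H, n ∈ Nm (H ⊓ D) := by
    intro n hn
    have hn' : ∀ h : G, h ∈ H ↔ n * h * n⁻¹ ∈ H := mem_normalizer_iff.1 hn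
    refine mem_normalizer_iff.2 fun h => ?_
    rw [mem_inf, mem_inf, hn' h]
    refine and_congr_right fun _ => ⟨fun hh => hD.conj_mem h hh n, fun hh => ?_⟩
    have := hD.conj_mem _ hh n⁻¹
    have e : n⁻¹ * (n * h * n⁻¹) * n⁻¹⁻¹ = h := by group
    rwa [e] at this
  have hSB : ∀ g : G, ∃ n ∈ S, ∃ b ∈ B, g = n * b := by
    intro g
    obtain ⟨n, hn, b, hb, e⟩ := hB g
    exact ⟨n, hW (hNm n hn), b, hb, e⟩
  rw [← index_eq_one]
  by_contra hne
  obtain ⟨q, hq, hdvd⟩ := Nat.exists_prime_and_dvd hne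
  by_cases hq2 : q = 2
  · rw [hq2] at hdvd
    exact hP.2 (hdvd.trans (index_dvd_of_le hPS))
  · have : Fact q.Prime := ⟨hq⟩
    let Q : Sylow q B := default
    obtain ⟨Y, hYd⟩ : ∃ Y : Subgroup G, Y = (Q : Subgroup B).map B.subtype := ⟨_, rfl⟩
    have hYB : Y ≤ B := by
      rw [hYd]
      exact map_subtype_le _
    have hYq : IsPGroup q Y := by
      rw [hYd]
      exact Q.2.map _
    have hk := key hq hq2 hH hD hD2 hYq (pm_of hq hq2 hperm Y hYB hYq)
    have hYS : Y ≤ S := by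
      intro y hy
      apply hW
      refine mem_normalizer_iff.2 fun h => ⟨fun hh => hk y hy h hh, fun hh => ?_⟩
      have := hk y⁻¹ (Y.inv_mem hy) _ hh
      have e : y⁻¹ * (y * h * y⁻¹) * y⁻¹⁻¹ = h := by group
      rwa [e] at this
    have hQS : (Q : Subgroup B) ≤ S.subgroupOf B := by
      intro b hb
      rw [mem_subgroupOf]
      apply hYS
      rw [hYd]
      exact ⟨b, hb, rfl⟩
    rw [← index_eq S B hSB] at hdvd
    exact Q.not_dvd_index (hdvd.trans (index_dvd_of_le hQS))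


theorem a7 (G : Type) [Group G] [Finite G] (H N : Subgroup G) (hH : IsPGroup 2 H) (hP : WPro H)
    (hN : N.Normal) (hHN : ¬ H ≤ N) :
    ∃ F : Subgroup G, F.Normal ∧ N < F ∧ ((∃ j : ℕ, N.relIndex F = 2 ^ j) ∨ Odd (N.relIndex F)) := by
  set f := QuotientGroup.mk' N with hf
  have hs : Function.Surjective f := QuotientGroup.mk'_surjective N
  have hk : f.ker = N := QuotientGroup.ker_mk' N
  have hne : H.map f ≠ ⊥ := by
    intro h
    apply hHN
    have := (Subgroup.map_eq_bot_iff H).1 h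
    rwa [hk] at this
  have hPG : IsPGroup 2 (H.map f) := hH.map f
  obtain ⟨N', hN'n, hN'b, hN'c⟩ := Q2.PM.Fin.a3 (G ⧸ N) (H.map f) hne hPG
    (a4 (G ⧸ N) (H.map f) hPG (a5 G (G ⧸ N) f H hs hP))
  have hcard : N.relIndex (N'.comap f) = Nat.card N' := by
    have e1 : (⊥ : Subgroup (G ⧸ N)).comap f = N := hk
    have e2 : ((⊥ : Subgroup (G ⧸ N)).comap f).relIndex (N'.comap f) =
        (⊥ : Subgroup (G ⧸ N)).relIndex ((N'.comap f).map f) := Subgroup.relIndex_comap _ _ _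
    calc N.relIndex (N'.comap f) = ((⊥ : Subgroup (G ⧸ N)).comap f).relIndex (N'.comap f) :=
          congrArg (fun M : Subgroup G => M.relIndex (N'.comap f)) e1.symm
      _ = (⊥ : Subgroup (G ⧸ N)).relIndex ((N'.comap f).map f) := e2
      _ = Nat.card N' := by
          rw [Subgroup.map_comap_eq_self_of_surjective hs, Subgroup.relIndex_bot_left]
  refine ⟨N'.comap f, hN'n.comap f, ?_, ?_⟩
  · refine lt_of_le_of_ne ?_ ?_
    · intro x hx
      show f x ∈ N'
      have : f x = 1 := by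
        have : x ∈ f.ker := by rw [hk]; exact hx
        exact this
      rw [this]; exact N'.one_mem
    · intro h
      apply hN'b
      rw [← Subgroup.card_eq_one, ← hcard, ← h, Subgroup.relIndex_self]
  · rcases hN'c with h | h
    · left
      obtain ⟨j, hj⟩ := IsPGroup.iff_card.1 h
      exact ⟨j, by rw [hcard, hj]⟩
    · right
      rw [hcard]; exact h


theorem a8 (k : ℕ) (G : Type) [Group G] [Finite G] (P N : Subgroup G) [N.Normal] (hP : IsSyl 2 P)
    (hN : Odd (Nat.card N)) (hyp : WHyp k P) :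
    WHyp k (P.map (QuotientGroup.mk' N)) ∧ Nat.card (P.map (QuotientGroup.mk' N)) = Nat.card P := by
  obtain ⟨n, hn⟩ := (IsPGroup.iff_card.mp hP.1)
  have hPN : N ⊓ P = ⊥ := by
    apply inf_eq_bot_of_coprime
    rw [hn]
    exact (Nat.coprime_two_right.mpr hN).pow_right n
  refine ⟨?_, ?_⟩
  · intro H' hH' hc
    have hmap : (H'.comap (QuotientGroup.mk' N) ⊓ P).map (QuotientGroup.mk' N) = H' := by
      ext y
      constructor
      · rintro ⟨x, hx, rfl⟩
        exact hx.1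
      · intro hy
        obtain ⟨x, hx, rfl⟩ := hH' hy
        exact ⟨x, ⟨hy, hx⟩, rfl⟩
    have hcard : Nat.card (H'.comap (QuotientGroup.mk' N) ⊓ P : Subgroup G) = 2 ^ k := by
      rw [← hc]
      conv_rhs => rw [← hmap]
      rw [Q147.PM_A8.card_map_inj]
      rw [QuotientGroup.ker_mk', ← le_bot_iff, ← hPN]
      exact inf_le_inf le_rfl inf_le_right
    have := a5 G (G ⧸ N) (QuotientGroup.mk' N) _ (QuotientGroup.mk'_surjective N)
      (hyp _ inf_le_right hcard)
    rwa [hmap] at this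
  · apply Q147.PM_A8.card_map_inj
    rw [QuotientGroup.ker_mk', hPN]


theorem a9 (k m : ℕ) (G : Type) [Group G] [Finite G] (P T : Subgroup G) [T.Normal] (hP : IsSyl 2 P)
    (hT : Nat.card T = 2 ^ m) (hmk : m ≤ k) (hyp : WHyp k P) :
    WHyp (k - m) (P.map (QuotientGroup.mk' T)) ∧
      Nat.card (P.map (QuotientGroup.mk' T)) * 2 ^ m = Nat.card P := by
  have hTp : IsPGroup 2 T := IsPGroup.of_card hT
  haveI : Fact (Nat.Prime 2) := ⟨Nat.prime_two⟩
  have hTP : T ≤ P := by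
    have h1 : IsPGroup 2 (P ⊔ T : Subgroup G) := hP.1.to_sup_of_normal_right hTp
    have h2 := (hP.1.toSylow hP.2).is_maximal' h1 le_sup_left
    exact le_sup_right.trans h2.le
  have hker : (QuotientGroup.mk' T).ker = T := QuotientGroup.ker_mk' T
  refine ⟨?_, ?_⟩
  · intro H' hH' hc
    have hmap : (H'.comap (QuotientGroup.mk' T)).map (QuotientGroup.mk' T) = H' :=
      map_comap_eq_self_of_surjective (QuotientGroup.mk'_surjective T) H'
    have hle : H'.comap (QuotientGroup.mk' T) ≤ P := by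
      intro x hx
      obtain ⟨y, hy, hxy⟩ := hH' hx
      have h3 : y⁻¹ * x ∈ T := QuotientGroup.eq.mp hxy
      have h4 := P.mul_mem hy (hTP h3)
      rwa [mul_inv_cancel_left] at h4
    have hcard : Nat.card (H'.comap (QuotientGroup.mk' T)) = 2 ^ k := by
      have h5 := Q147.PM_A9.card_map_mul (QuotientGroup.mk' T) (H'.comap (QuotientGroup.mk' T))
        (ker_le_comap _ _)
      rw [hmap, hc, hker, hT, ← pow_add, Nat.add_sub_cancel' hmk] at h5
      exact h5.symm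
    have := a5 G (G ⧸ T) (QuotientGroup.mk' T) _ (QuotientGroup.mk'_surjective T)
      (hyp _ hle hcard)
    rwa [hmap] at this
  · have h5 := Q147.PM_A9.card_map_mul (QuotientGroup.mk' T) P (hker.le.trans hTP)
    rw [hker, hT] at h5
    rw [mul_comm]
    exact h5


theorem main : ∀ (k : ℕ) (G : Type) [Group G] [Finite G] (P : Subgroup G), 2 ≤ k → IsSyl 2 P →
    2 ^ k < Nat.card P → WHyp k P → IsPNil 2 G := by
  have key : ∀ n : ℕ, ∀ (k : ℕ) (G : Type) [Group G] [Finite G] (P : Subgroup G), Nat.card G = n →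
      2 ≤ k → IsSyl 2 P → 2 ^ k < Nat.card P → WHyp k P → IsPNil 2 G := by
    intro n
    induction n using Nat.strong_induction_on with
    | _ n ih =>
    intro k G _ _ P hn hk hP hc hH
    by_contra hG
    have hEnv : Env k P := by
      refine ⟨hk, hP, hc, hG, ?_, ?_, ?_, ?_⟩
      · intro N hN hodd
        by_contra hne
        have hlt : Nat.card (G ⧸ N) < n := hn ▸ Q2.TN.Asm.card_quot_lt N hne
        obtain ⟨h1, h2⟩ := a8 k G P N hP hodd hH
        have h3 : IsPNil 2 (G ⧸ N) := ih _ hlt k (G ⧸ N) (P.map (QuotientGroup.mk' N)) rfl hk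
          ((Q2.TN.Fin.a6 2 Nat.prime_two G P hP).2.1 _ _ (QuotientGroup.mk'_surjective N))
          (h2 ▸ hc) h1
        exact hG (Q2.TN.Fin.a3 2 Nat.prime_two G N ((Nat.coprime_two_right).2 hodd) h3)
      · intro H D S hHP hHc hD hDp hPS hS
        exact a6 G H D P S (hP.1.to_le hHP) (hH H hHP hHc) hD hDp hP hPS hS
      · intro H N hHP hHc hN hle
        exact a7 G H N (hP.1.to_le hHP) (hH H hHP hHc) hN hle
      · intro T hTn hT m hm hmk
        have hlt : Nat.card (G ⧸ T) < n := hn ▸ Q2.TN.Asm.card_quot_lt T hT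
        obtain ⟨h1, h2⟩ := a9 k m G P T hP hm (by omega) hH
        refine ih _ hlt (k - m) (G ⧸ T) (P.map (QuotientGroup.mk' T)) rfl (by omega)
          ((Q2.TN.Fin.a6 2 Nat.prime_two G P hP).2.1 _ _ (QuotientGroup.mk'_surjective T)) ?_ h1
        have h3 : 2 ^ k = 2 ^ (k - m) * 2 ^ m := by
          rw [← pow_add]
          congr 1
          omega
        rw [h3, ← h2] at hc
        exact lt_of_mul_lt_mul_right hc (Nat.zero_le _)
    have h3 := Q2.PM.Fin.c12 k G P hEnv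
    have h4 : k = 2 := by omega
    subst h4
    exact Q2.PM.Fin.c14 G P hEnv
  intro k G _ _ P hk hP hc hH
  exact key _ k G P rfl hk hP hc hH


end KS7_39.D54
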